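import Mathlib

/-! MP_d2c770_co: the domatic game numbers for the two choices of the first player differ by at
most one. -/

namespace Pool.Agent.Results.MP_d2c770_co.FirstPlayer

open Function

/-- the two players -/
inductive Player
  | alice
  | bob

/-- `S` is a dominating set of `G` -/
def Dominating {V : Type} (G : SimpleGraph V) (S : Set V) : Prop :=
  ∀ v, v ∈ S ∨ ∃ w ∈ S, G.Adj v w

/-- `AliceWins G k X c`: in the domatic game on `G` with palette `Fin k`, Alice has a winning
strategy from the position in which the vertices are (partially) coloured by `c` (`none` means
uncoloured) and player `X` is to move. The game ends when all vertices are coloured; Alice wins iff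
every colour class is then a dominating set. -/
inductive AliceWins {V : Type} [DecidableEq V] (G : SimpleGraph V) (k : ℕ) :
    Player → (V → Option (Fin k)) → Prop
  | finished (X : Player) (c : V → Option (Fin k)) (full : ∀ v, c v ≠ none)
      (dom : ∀ i : Fin k, Dominating G {v | c v = some i}) : AliceWins G k X c
  | alice (c : V → Option (Fin k)) (v : V) (i : Fin k) (hv : c v = none)
      (h : AliceWins G k Player.bob (update c v (some i))) : AliceWins G k Player.alice c
  | bob (c : V → Option (Fin k)) (hne : ∃ v, c v = none)
      (h : ∀ v i, c v = none → AliceWins G k Player.alice (update c v (some i))) :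
      AliceWins G k Player.bob c

/-- the domatic game number `γ_g(G, X)`: the largest `k ≥ 1` such that Alice wins with `k` colours
when `X` moves first -/
noncomputable def gameNumber {V : Type} [DecidableEq V] (G : SimpleGraph V) (X : Player) : ℕ :=
  sSup {k | 1 ≤ k ∧ AliceWins G k X fun _ => none}

/-! ### The blocking game -/

/-- the game in which Bob only makes vertices dead (`some none`) -/
inductive DWins {V : Type} [DecidableEq V] (G : SimpleGraph V) (J : Type) :
    Player → (V → Option (Option J)) → Prop
  | finished (X : Player) (s : V → Option (Option J)) (full : ∀ v, s v ≠ none)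
      (dom : ∀ j : J, Dominating G {v | s v = some (some j)}) : DWins G J X s
  | alice (s : V → Option (Option J)) (v : V) (o : Option J) (hv : s v = none)
      (h : DWins G J Player.bob (update s v (some o))) : DWins G J Player.alice s
  | bob (s : V → Option (Option J)) (hne : ∃ v, s v = none)
      (h : ∀ v, s v = none → DWins G J Player.alice (update s v (some none))) :
      DWins G J Player.bob s

section

variable {V : Type} [Fintype V] [DecidableEq V] {G : SimpleGraph V}

omit [Fintype V] [DecidableEq V] in
theorem Dominating.mono {S T : Set V} (h : Dominating G S) (hST : S ⊆ T) : Dominating G T := by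
  intro v
  rcases h v with h1 | ⟨w, hw, h2⟩
  · exact Or.inl (hST h1)
  · exact Or.inr ⟨w, hST hw, h2⟩

open Classical in
/-- number of free vertices -/
noncomputable def free {A : Type} (s : V → Option A) : ℕ :=
  (Finset.univ.filter fun v => s v = none).card

theorem free_update {A : Type} (s : V → Option A) (v : V) (hv : s v = none) (a : A) :
    free (update s v (some a)) < free s := by
  classical
  unfold free
  apply Finset.card_lt_card
  rw [Finset.ssubset_iff_subset_ne]
  constructor
  · intro w hw
    rw [Finset.mem_filter] at hw ⊢
    refine ⟨Finset.mem_univ _, ?_⟩
    by_cases h : w = v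
    · rw [h]; exact hv
    · rw [update_of_ne h] at hw
      exact hw.2
  · intro h
    have h1 : v ∈ Finset.univ.filter fun v => s v = none :=
      Finset.mem_filter.2 ⟨Finset.mem_univ _, hv⟩
    rw [← h, Finset.mem_filter, update_self] at h1
    simp at h1

/-- Dead vertices do not help Alice. -/
theorem kill {J : Type} (m : ℕ) : ∀ (s : V → Option (Option J)) (y : V), s y = none →
    free s = m → ∀ X, DWins G J X (update s y (some none)) → DWins G J X s := by
  induction m using Nat.strong_induction_on with
  | _ m ih =>
    intro s y hy hm X h
    have hlt : ∀ v o, s v = none → free (update s v (some o)) < m := by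
      intro v o hv
      rw [← hm]
      exact free_update s v hv o
    cases X with
    | alice =>
      cases h with
      | finished _ _ full dom => exact DWins.alice s y none hy (DWins.finished _ _ full dom)
      | alice _ v o hv h' =>
        have hvy : v ≠ y := by
          rintro rfl
          rw [update_self] at hv
          simp at hv
        rw [update_of_ne hvy] at hv
        rw [update_comm hvy.symm] at h'
        refine DWins.alice s v o hv (ih _ (hlt v o hv) (update s v (some o)) y ?_ rfl _ h')
        rw [update_of_ne hvy.symm]
        exact hy
    | bob =>
      refine DWins.bob s ⟨y, hy⟩ ?_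
      intro z hz
      by_cases hzy : z = y
      · subst hzy
        cases h with
        | finished _ _ full dom => exact DWins.finished _ _ full dom
        | bob _ hne h' =>
          obtain ⟨w, hw⟩ := hne
          exact ih _ (hlt z none hz) (update s z (some none)) w hw rfl _ (h' w hw)
      · cases h with
        | finished _ _ full dom =>
          exact absurd hz (by
            have := full z
            rwa [update_of_ne hzy] at this)
        | bob _ hne h' =>
          have h1 := h' z (by rw [update_of_ne hzy]; exact hz)
          rw [update_comm (Ne.symm hzy)] at h1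
          refine ih _ (hlt z none hz) (update s z (some none)) y ?_ rfl _ h1
          rw [update_of_ne (Ne.symm hzy)]
          exact hy

/-- In the blocking game it is not a disadvantage for Alice to be on move. -/
theorem move {J : Type} (s : V → Option (Option J)) (h : DWins G J Player.bob s) :
    DWins G J Player.alice s := by
  cases h with
  | finished _ _ full dom => exact DWins.finished _ _ full dom
  | bob _ hne h' =>
    obtain ⟨y, hy⟩ := hne
    exact kill (free s) s y hy rfl _ (h' y hy)

omit [Fintype V] in
/-- From the domatic game to the blocking game. -/
theorem toD {J : Type} {k : ℕ} (φ : Fin k → Option J) (ψ : J → Fin k)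
    (hφψ : ∀ j, φ (ψ j) = some j) (i0 : Fin k) (hi0 : φ i0 = none) {X : Player}
    {c : V → Option (Fin k)} (h : AliceWins G k X c) :
    DWins G J X fun v => (c v).map φ := by
  have hup : ∀ (c : V → Option (Fin k)) v i, (fun w => (update c v (some i) w).map φ) =
      update (fun w => (c w).map φ) v (some (φ i)) := by
    intro c v i
    funext w
    by_cases hw : w = v
    · subst hw
      rw [update_self, update_self]
      rfl
    · rw [update_of_ne hw, update_of_ne hw]
  induction h with
  | finished X c full dom =>
    refine DWins.finished _ _ ?_ ?_
    · intro v h
      exact full v (Option.map_eq_none_iff.1 h)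
    · intro j
      refine (dom (ψ j)).mono ?_
      intro v hv
      have hv' : c v = some (ψ j) := hv
      show (c v).map φ = some (some j)
      rw [hv', Option.map_some, hφψ]
  | alice c v i hv h ih =>
    rw [hup] at ih
    exact DWins.alice _ v (φ i) (by rw [hv]; rfl) ih
  | bob c hne h ih =>
    obtain ⟨v, hv⟩ := hne
    refine DWins.bob _ ⟨v, by rw [hv]; rfl⟩ ?_
    intro w hw
    have hw' : c w = none := Option.map_eq_none_iff.1 hw
    have := ih w i0 hw'
    rw [hup, hi0] at this
    exact this

omit [Fintype V] in
/-- From the blocking game to the domatic game. -/
theorem ofD {k : ℕ} (i0 : Fin k) {X : Player} {s : V → Option (Option (Fin k))}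
    (h : DWins G (Fin k) X s) : ∀ c : V → Option (Fin k), (∀ v, s v = none ↔ c v = none) →
    (∀ v j, s v = some (some j) → c v = some j) → AliceWins G k X c := by
  induction h with
  | finished X s full dom =>
    intro c h1 h2
    refine AliceWins.finished _ _ (fun v hv => full v ((h1 v).2 hv)) fun j => ?_
    exact (dom j).mono fun v hv => h2 v j hv
  | alice s v o hv h ih =>
    intro c h1 h2
    refine AliceWins.alice c v (o.getD i0) ((h1 v).1 hv) (ih _ ?_ ?_)
    · intro w
      by_cases hw : w = v
      · subst hw
        rw [update_self, update_self]
        simp
      · rw [update_of_ne hw, update_of_ne hw]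
        exact h1 w
    · intro w j
      by_cases hw : w = v
      · subst hw
        rw [update_self, update_self]
        intro h3
        have h4 : o = some j := Option.some_injective _ h3
        rw [h4]
        rfl
      · rw [update_of_ne hw, update_of_ne hw]
        exact h2 w j
  | bob s hne h ih =>
    intro c h1 h2
    obtain ⟨v, hv⟩ := hne
    refine AliceWins.bob c ⟨v, (h1 v).1 hv⟩ ?_
    intro w i hw
    refine ih w ((h1 w).2 hw) _ ?_ ?_
    · intro x
      by_cases hx : x = w
      · subst hx
        rw [update_self, update_self]
        simp
      · rw [update_of_ne hx, update_of_ne hx]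
        exact h1 x
    · intro x j
      by_cases hx : x = w
      · subst hx
        rw [update_self]
        intro h3
        simp at h3
      · rw [update_of_ne hx, update_of_ne hx]
        exact h2 x j

/-- forgetting the colour `i` -/
noncomputable def forget {k : ℕ} (i : Fin (k + 1)) (x : Fin (k + 1)) : Option (Fin k) := by
  classical
  exact if h : ∃ j, i.succAbove j = x then some h.choose else none

theorem forget_succAbove {k : ℕ} (i : Fin (k + 1)) (j : Fin k) :
    forget i (i.succAbove j) = some j := by
  classical
  have h : ∃ j', i.succAbove j' = i.succAbove j := ⟨j, rfl⟩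
  unfold forget
  rw [dif_pos h]
  exact congrArg some (Fin.succAbove_right_injective h.choose_spec)

theorem forget_self {k : ℕ} (i : Fin (k + 1)) : forget i i = none := by
  classical
  unfold forget
  rw [dif_neg]
  rintro ⟨j, hj⟩
  exact Fin.succAbove_ne i j hj

/-- from Bob first with `k + 1` colours to Alice first with `k` colours -/
theorem bob_to_alice {k : ℕ} (hk : 1 ≤ k)
    (h : AliceWins G (k + 1) Player.bob fun _ => none) :
    AliceWins G k Player.alice fun _ => none := by
  have h1 := toD (forget (Fin.last k)) (Fin.last k).succAbove (forget_succAbove _) (Fin.last k)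
    (forget_self _) h
  have h2 := move _ h1
  exact ofD ⟨0, hk⟩ h2 _ (fun v => by simp) (fun v j h3 => by simp at h3)

/-- from Alice first with `k + 1` colours to Bob first with `k` colours -/
theorem alice_to_bob [Nonempty V] {k : ℕ} (hk : 1 ≤ k)
    (h : AliceWins G (k + 1) Player.alice fun _ => none) :
    AliceWins G k Player.bob fun _ => none := by
  cases h with
  | finished _ _ full _ => exact absurd rfl (full (Classical.arbitrary V))
  | alice _ v i hv h' =>
    have h1 := toD (forget i) i.succAbove (forget_succAbove _) i (forget_self _) h'
    have h2 : (fun w => (update (fun _ : V => (none : Option (Fin (k + 1)))) v (some i) w).map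
        (forget i)) = update (fun _ => none) v (some none) := by
      funext w
      by_cases hw : w = v
      · subst hw
        rw [update_self, update_self, Option.map_some, forget_self]
      · rw [update_of_ne hw, update_of_ne hw]
        rfl
    rw [h2] at h1
    have h3 := kill (free (fun _ : V => (none : Option (Option (Fin k))))) _ v rfl rfl _ h1
    exact ofD ⟨0, hk⟩ h3 _ (fun v => by simp) (fun v j h4 => by simp at h4)

theorem le_card [Nonempty V] {k : ℕ} (hk : 1 ≤ k) {X : Player} {c : V → Option (Fin k)}
    (h : AliceWins G k X c) : k ≤ Fintype.card V := by
  induction h with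
  | finished X c full dom =>
    have : ∀ i : Fin k, ∃ v, c v = some i := by
      intro i
      rcases dom i (Classical.arbitrary V) with h | ⟨w, hw, _⟩
      · exact ⟨_, h⟩
      · exact ⟨w, hw⟩
    choose f hf using this
    have hinj : Function.Injective f := by
      intro i j hij
      have h1 := hf i
      rw [hij, hf j] at h1
      exact (Option.some_injective _ h1).symm
    have := Fintype.card_le_of_injective f hinj
    rwa [Fintype.card_fin] at this
  | alice c v i hv h ih => exact ih
  | bob c hne h ih =>
    obtain ⟨v, hv⟩ := hne
    exact ih v ⟨0, hk⟩ hv

theorem one_colour (m : ℕ) : ∀ (c : V → Option (Fin 1)), free c = m → ∀ X,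
    AliceWins G 1 X c := by
  classical
  induction m using Nat.strong_induction_on with
  | _ m ih =>
    intro c hm X
    by_cases hfull : ∀ v, c v ≠ none
    · refine AliceWins.finished _ _ hfull fun i v => Or.inl ?_
      obtain ⟨j, hj⟩ := Option.ne_none_iff_exists'.1 (hfull v)
      show c v = some i
      rw [hj, Subsingleton.elim i j]
    · push Not at hfull
      obtain ⟨v, hv⟩ := hfull
      cases X with
      | alice =>
        exact AliceWins.alice c v 0 hv (ih _ (by rw [← hm]; exact free_update c v hv 0) _ rfl _)
      | bob =>
        refine AliceWins.bob c ⟨v, hv⟩ fun w i hw => ?_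
        exact ih _ (by rw [← hm]; exact free_update c w hw i) _ rfl _

end

/-- **Q1 is true.** Let `G` be a finite graph with at least one vertex. For both choices of the
first player the domatic game number is the largest number of colours with which Alice wins, and
the two numbers differ by at most one. -/
theorem result {V : Type} [Fintype V] [DecidableEq V] [Nonempty V] (G : SimpleGraph V) :
    (∀ X, IsGreatest {k | 1 ≤ k ∧ AliceWins G k X fun _ => none} (gameNumber G X)) ∧
    |(gameNumber G Player.alice : ℤ) - gameNumber G Player.bob| ≤ 1 := by
  have hbdd : ∀ X, BddAbove {k | 1 ≤ k ∧ AliceWins G k X fun _ => none} := fun X =>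
    ⟨Fintype.card V, fun k hk => le_card hk.1 hk.2⟩
  have hmem : ∀ X, gameNumber G X ∈ {k | 1 ≤ k ∧ AliceWins G k X fun _ => none} := by
    intro X
    exact Nat.sSup_mem ⟨1, le_rfl, one_colour _ _ rfl X⟩ (hbdd X)
  refine ⟨fun X => ⟨hmem X, fun k hk => le_csSup (hbdd X) hk⟩, ?_⟩
  have h1 : gameNumber G Player.bob ≤ gameNumber G Player.alice + 1 := by
    have hA := (hmem Player.alice).1
    by_contra hcon
    push Not at hcon
    obtain ⟨k, hk⟩ : ∃ k, gameNumber G Player.bob = k + 1 :=
      ⟨gameNumber G Player.bob - 1, by omega⟩
    have hB := (hmem Player.bob).2
    rw [hk] at hB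
    have h2 := bob_to_alice (by omega : 1 ≤ k) hB
    have h3 : k ≤ gameNumber G Player.alice := le_csSup (hbdd _) ⟨by omega, h2⟩
    omega
  have h2 : gameNumber G Player.alice ≤ gameNumber G Player.bob + 1 := by
    have hB := (hmem Player.bob).1
    by_contra hcon
    push Not at hcon
    obtain ⟨k, hk⟩ : ∃ k, gameNumber G Player.alice = k + 1 :=
      ⟨gameNumber G Player.alice - 1, by omega⟩
    have hA := (hmem Player.alice).2
    rw [hk] at hA
    have h2 := alice_to_bob (by omega : 1 ≤ k) hA
    have h3 : k ≤ gameNumber G Player.bob := le_csSup (hbdd _) ⟨by omega, h2⟩
    omega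
  rw [abs_le]
  constructor <;> omega

end Pool.Agent.Results.MP_d2c770_co.FirstPlayer
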